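import Pool.Agent.H752.PL.Stubs
import Pool.Agent.H620R2.Gauge.S
import Pool.Agent.H620R2.Gauge.C

/-!
# Locality of computations with a small memory
-/

namespace Pool.Agent.H752.PL

open Pool.Agent.NPC Pool.Agent.H622R2 Pool.Agent.H620R2.Gauge Finset H568R2 Pool.Agent.H752.GE Filter

theorem L7_len (M : MAlg) : ∃ w : Polynomial ℕ, ∀ s : List Bool,
    (M.act s).length ≤ w.eval s.length := by
  obtain ⟨q, hq⟩ := (poly_of_polyTime M.act_poly).sz_le
  refine ⟨q.comp (Polynomial.C 4 * Polynomial.X + Polynomial.C 1), fun s => ?_⟩
  have h1 := length_lt_sz (M.act s)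
  refine h1.le.trans ((hq _).trans ?_)
  rw [Polynomial.eval_comp]
  apply eval_mono
  have h2 := sz_listBool_le s
  simp only [Polynomial.eval_add, Polynomial.eval_mul, Polynomial.eval_C, Polynomial.eval_X]
  omega

/-- one step without a question -/
def L7_stp (M : MAlg) (B : ℕ) (x s : List Bool) : Option (List Bool × List Bool) :=
  match M.act s with
  | false :: z => if (M.next (pairBits s [])).length ≤ B then
      some (M.next (pairBits s []), z) else none
  | true :: true :: i => if (M.next (pairBits s (x[val i]?).toList)).length ≤ B then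
      some (M.next (pairBits s (x[val i]?).toList), []) else none
  | _ => none

/-- `k` steps without a question, starting with empty oracle tape -/
def L7_it (M : MAlg) (B : ℕ) (x : List Bool) : ℕ → List Bool → Option (List Bool × List Bool)
  | 0, s => some (s, [])
  | k + 1, s => (L7_it M B x k s).bind
      (fun p => (L7_stp M B x p.1).map (fun r => (r.1, p.2 ++ r.2)))

section
variable {M : MAlg} {B : ℕ} {x : List Bool}

theorem L7_none {k : ℕ} {s : List Bool} (h : L7_it M B x k s = none) (j : ℕ) :
    L7_it M B x (k + j) s = none := by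
  induction j with
  | zero => exact h
  | succ j ih =>
    show L7_it M B x ((k + j) + 1) s = none
    rw [L7_it, ih]
    rfl

theorem L7_ask {k : ℕ} {s s' y i : List Bool} (h : L7_it M B x k s = some (s', y))
    (ha : M.act s' = true :: false :: i) : L7_it M B x (k + 1) s = none := by
  rw [L7_it, h]
  simp [L7_stp, ha]

theorem L7_fst {i j : ℕ} {s : List Bool}
    (h : (L7_it M B x i s).map Prod.fst = (L7_it M B x j s).map Prod.fst) (t : ℕ) :
    (L7_it M B x (i + t) s).map Prod.fst = (L7_it M B x (j + t) s).map Prod.fst := by
  induction t with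
  | zero => exact h
  | succ t ih =>
    show (L7_it M B x ((i + t) + 1) s).map Prod.fst = (L7_it M B x ((j + t) + 1) s).map Prod.fst
    rw [L7_it, L7_it]
    cases hi : L7_it M B x (i + t) s with
    | none =>
      rw [hi] at ih
      cases hj : L7_it M B x (j + t) s with
      | none => rfl
      | some q => rw [hj] at ih; simp at ih
    | some p =>
      rw [hi] at ih
      cases hj : L7_it M B x (j + t) s with
      | none => rw [hj] at ih; simp at ih
      | some q =>
        rw [hj] at ih
        simp only [Option.map_some, Option.some.injEq] at ih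
        simp only [Option.bind_some, Option.map_map]
        rw [ih]
        rfl

theorem L7_stp_len {s s' z : List Bool} (h : L7_stp M B x s = some (s', z)) :
    s'.length ≤ B ∧ z.length ≤ (M.act s).length := by
  unfold L7_stp at h
  split at h
  · rename_i z' hz
    split_ifs at h with hB
    simp only [Option.some.injEq, Prod.mk.injEq] at h
    obtain ⟨rfl, rfl⟩ := h
    rw [hz]
    exact ⟨hB, by simp⟩
  · split_ifs at h with hB
    simp only [Option.some.injEq, Prod.mk.injEq] at h
    obtain ⟨rfl, rfl⟩ := h
    exact ⟨hB, by simp⟩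
  · simp at h

theorem L7_it_len {w : Polynomial ℕ} (hw : ∀ s : List Bool, (M.act s).length ≤ w.eval s.length)
    {s : List Bool} (hs : s.length ≤ B) : ∀ (k : ℕ) (s' y : List Bool),
    L7_it M B x k s = some (s', y) → s'.length ≤ B ∧ y.length ≤ k * w.eval B := by
  intro k
  induction k with
  | zero =>
    intro s' y h
    simp only [L7_it, Option.some.injEq, Prod.mk.injEq] at h
    obtain ⟨rfl, rfl⟩ := h
    exact ⟨hs, by simp⟩
  | succ k ih =>
    intro s' y h
    rw [L7_it] at h
    cases hk : L7_it M B x k s with
    | none => rw [hk] at h; simp at h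
    | some p =>
      obtain ⟨p1, p2⟩ := p
      rw [hk] at h
      simp only [Option.bind_some] at h
      cases hp : L7_stp M B x p1 with
      | none => rw [hp] at h; simp at h
      | some r =>
        obtain ⟨r1, r2⟩ := r
        rw [hp] at h
        simp only [Option.map_some, Option.some.injEq, Prod.mk.injEq] at h
        obtain ⟨rfl, rfl⟩ := h
        obtain ⟨h1, h2⟩ := ih p1 p2 hk
        obtain ⟨h3, h4⟩ := L7_stp_len hp
        refine ⟨h3, ?_⟩
        rw [List.length_append, Nat.succ_mul]
        have h5 : r2.length ≤ w.eval B := h4.trans ((hw p1).trans (eval_mono w h1))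
        omega

/-- the number of steps before a question is bounded -/
theorem L7_steps {s : List Bool} (hs : s.length ≤ B) {k : ℕ} {s' y i : List Bool}
    (h : L7_it M B x k s = some (s', y)) (ha : M.act s' = true :: false :: i) :
    k ≤ 2 ^ (B + 1) := by
  have hsome : ∀ j ≤ k, ∃ p, L7_it M B x j s = some p := by
    intro j hj
    cases hj2 : L7_it M B x j s with
    | none =>
      have := L7_none hj2 (k - j)
      rw [show j + (k - j) = k by omega, h] at this
      simp at this
    | some p => exact ⟨p, rfl⟩
  obtain ⟨w, hw⟩ := L7_len M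
  have hmaps : ∀ j ∈ Finset.range (k + 1),
      idx (((L7_it M B x j s).map Prod.fst).getD []) ∈ Finset.range (2 ^ (B + 1)) := by
    intro j hj
    obtain ⟨p, hp⟩ := hsome j (by have := Finset.mem_range.mp hj; omega)
    have h1 := (L7_it_len hw hs j p.1 p.2 (by rw [hp])).1
    rw [hp]
    simp only [Option.map_some, Option.getD_some, Finset.mem_range]
    have h2 := idx_lt p.1
    have h3 : 2 ^ (p.1.length + 1) ≤ 2 ^ (B + 1) := Nat.pow_le_pow_right (by norm_num) (by omega)
    omega
  have hinj : Set.InjOn (fun j => idx (((L7_it M B x j s).map Prod.fst).getD []))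
      (Finset.range (k + 1) : Set ℕ) := by
    have key : ∀ a b : ℕ, a < b → b ≤ k →
        idx (((L7_it M B x a s).map Prod.fst).getD []) ≠
          idx (((L7_it M B x b s).map Prod.fst).getD []) := by
      intro a b hab hb heq
      have h1 : ((L7_it M B x a s).map Prod.fst).getD [] =
          ((L7_it M B x b s).map Prod.fst).getD [] := by
        have := congrArg str heq
        rwa [str_idx, str_idx] at this
      obtain ⟨p, hp⟩ := hsome a (by omega)
      obtain ⟨q, hq⟩ := hsome b hb
      have h2 : (L7_it M B x a s).map Prod.fst = (L7_it M B x b s).map Prod.fst := by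
        rw [hp, hq] at h1 ⊢
        simpa using h1
      have h3 := L7_fst h2 (k - b)
      rw [show b + (k - b) = k by omega, h] at h3
      obtain ⟨r, hr⟩ := hsome (a + (k - b)) (by omega)
      rw [hr] at h3
      simp only [Option.map_some, Option.some.injEq] at h3
      have h4 : L7_it M B x (a + (k - b) + 1) s = none :=
        L7_ask (s' := r.1) (y := r.2) (i := i) (by rw [hr]) (by rw [h3]; exact ha)
      obtain ⟨r', hr'⟩ := hsome (a + (k - b) + 1) (by omega)
      rw [hr'] at h4
      simp at h4
    intro a ha' b hb' hab
    simp only [Finset.coe_range, Set.mem_Iio] at ha' hb'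
    rcases lt_trichotomy a b with h1 | h1 | h1
    · exact absurd hab (key a b h1 (by omega))
    · exact h1
    · exact absurd hab.symm (key b a h1 (by omega))
  have hc := Finset.card_le_card_of_injOn _ hmaps hinj
  rw [Finset.card_range, Finset.card_range] at hc
  omega

theorem L7_unique {s : List Bool} {k k' : ℕ} {s' y i s'' y' i' : List Bool}
    (h : L7_it M B x k s = some (s', y)) (ha : M.act s' = true :: false :: i)
    (h' : L7_it M B x k' s = some (s'', y')) (ha' : M.act s'' = true :: false :: i') :
    y = y' := by
  rcases lt_trichotomy k k' with h1 | h1 | h1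
  · have h2 := L7_none (L7_ask h ha) (k' - (k + 1))
    rw [show k + 1 + (k' - (k + 1)) = k' by omega, h'] at h2
    simp at h2
  · subst h1
    rw [h] at h'
    simp only [Option.some.injEq, Prod.mk.injEq] at h'
    exact h'.2
  · have h2 := L7_none (L7_ask h' ha') (k - (k' + 1))
    rw [show k' + 1 + (k - (k' + 1)) = k by omega, h] at h2
    simp at h2

end

open Classical in
/-- the first question after memory `s` with empty oracle tape -/
noncomputable def L7_q (M : MAlg) (B : ℕ) (x s : List Bool) : List Bool :=
  if h : ∃ y : List Bool, ∃ (k : ℕ) (s' i : List Bool), L7_it M B x k s = some (s', y) ∧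
    M.act s' = true :: false :: i then h.choose else []

theorem L7_q_eq {M : MAlg} {B : ℕ} {x s : List Bool} {k : ℕ} {s' y i : List Bool}
    (h : L7_it M B x k s = some (s', y)) (ha : M.act s' = true :: false :: i) :
    L7_q M B x s = y := by
  have hex : ∃ y : List Bool, ∃ (k : ℕ) (s' i : List Bool), L7_it M B x k s = some (s', y) ∧
    M.act s' = true :: false :: i := ⟨y, k, s', i, h, ha⟩
  unfold L7_q
  rw [dif_pos hex]
  obtain ⟨k', s'', i', h1, h2⟩ := hex.choose_spec
  exact L7_unique h1 h2 h ha

theorem L7_q_len {M : MAlg} {B : ℕ} {x s : List Bool} (hs : s.length ≤ B) {w : Polynomial ℕ}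
    (hw : ∀ s : List Bool, (M.act s).length ≤ w.eval s.length) :
    (L7_q M B x s).length ≤ 2 ^ (B + 1) * w.eval B := by
  unfold L7_q
  split_ifs with hex
  · obtain ⟨k', s'', i', h1, h2⟩ := hex.choose_spec
    have h3 := (L7_it_len hw hs _ _ _ h1).2
    have h4 := L7_steps hs h1 h2
    exact h3.trans (Nat.mul_le_mul_right _ h4)
  · simp

theorem L7_inv {M : MAlg} {B : ℕ} {A : Oracle} {x s y : List Bool} (h : ReachB M B A x s y) :
    ∃ (s0 : List Bool) (k : ℕ), s0.length ≤ B ∧ L7_it M B x k s0 = some (s, y) := by
  induction h with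
  | start hB => exact ⟨_, 0, hB, rfl⟩
  | @write s y z _ hact hB ih =>
    obtain ⟨s0, k, h0, hk⟩ := ih
    refine ⟨s0, k + 1, h0, ?_⟩
    rw [L7_it, hk]
    simp [L7_stp, hact, hB]
  | @read s y i _ hact hB ih =>
    obtain ⟨s0, k, h0, hk⟩ := ih
    refine ⟨s0, k + 1, h0, ?_⟩
    rw [L7_it, hk]
    simp [L7_stp, hact, hB]
  | @ask s y i _ _ hB _ => exact ⟨_, 0, hB, rfl⟩

theorem t_qs : St_qs := by
  classical
  intro M
  obtain ⟨w, hw⟩ := L7_len M
  refine ⟨w, fun B x => ?_⟩
  refine ⟨((Finset.range (2 ^ (B + 1))).filter (fun i => (str i).length ≤ B)).image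
    (fun i => L7_q M B x (str i)), ?_, ?_, ?_⟩
  · refine Finset.card_image_le.trans ((Finset.card_filter_le _ _).trans ?_)
    rw [Finset.card_range]
  · intro u hu
    obtain ⟨i, hi, rfl⟩ := Finset.mem_image.mp hu
    exact L7_q_len (Finset.mem_filter.mp hi).2 hw
  · have key : ∀ A A' : Oracle, (∀ u ∈ ((Finset.range (2 ^ (B + 1))).filter
        (fun i => (str i).length ≤ B)).image (fun i => L7_q M B x (str i)), A u = A' u) →
        ∀ s y, ReachB M B A x s y → ReachB M B A' x s y := by
      intro A A' hA s y h
      induction h with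
      | start hB => exact ReachB.start hB
      | write _ hact hB ih => exact ReachB.write ih hact hB
      | read _ hact hB ih => exact ReachB.read ih hact hB
      | @ask s y i hr hact hB ih =>
        obtain ⟨s0, k, h0, hk⟩ := L7_inv hr
        have hy : A y = A' y := by
          apply hA
          rw [← L7_q_eq hk hact]
          refine Finset.mem_image.mpr ⟨idx s0, Finset.mem_filter.mpr ⟨?_, ?_⟩, ?_⟩
          · rw [Finset.mem_range]
            have h2 := idx_lt s0
            have h3 : 2 ^ (s0.length + 1) ≤ 2 ^ (B + 1) :=
              Nat.pow_le_pow_right (by norm_num) (by omega)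
            omega
          · rw [str_idx]; exact h0
          · rw [str_idx]
        rw [hy] at hB ⊢
        exact ReachB.ask ih hact hB
    intro A A' hA
    constructor
    · rintro ⟨s, y, h, ha⟩
      exact ⟨s, y, key A A' hA s y h, ha⟩
    · rintro ⟨s, y, h, ha⟩
      exact ⟨s, y, key A' A (fun u hu => (hA u hu).symm) s y h, ha⟩

end Pool.Agent.H752.PL
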